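import Pool.Agent.H446.AP7.Top
import Pool.Agent.H446.AP13.W6

/-!
# The Hasse invariant of a family with several parameters
-/

set_option autoImplicit false

namespace Pool.Agent.H446.AP14

open Finset MvPolynomial
open Pool.Agent.H446.AP7 (hasseWitt det_hasseWitt_map)
open Pool.Agent.Y162.HW (idx topE lin)

variable {σ τ : Type*}

/-- The coefficients have total degree at most `D`. -/
def TDc (D : ℕ) (F : MvPolynomial τ (MvPolynomial σ ℤ)) : Prop := ∀ u, (F.coeff u).totalDegree ≤ D

lemma TDc.mul {D D' : ℕ} {F F' : MvPolynomial τ (MvPolynomial σ ℤ)} (h : TDc D F) (h' : TDc D' F') :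
    TDc (D + D') (F * F') := by
  classical
  intro u
  rw [MvPolynomial.coeff_mul]
  refine totalDegree_finsetSum_le fun x _ => ?_
  exact (totalDegree_mul _ _).trans (add_le_add (h _) (h' _))

lemma TDc.one : TDc 0 (1 : MvPolynomial τ (MvPolynomial σ ℤ)) := by
  classical
  intro u
  rw [MvPolynomial.coeff_one]
  split_ifs
  · rw [totalDegree_one]
  · rw [totalDegree_zero]

lemma TDc.monomial (v : τ →₀ ℕ) : TDc 0 (MvPolynomial.monomial v 1 : MvPolynomial τ (MvPolynomial σ ℤ)) := by
  classical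
  intro u
  rw [MvPolynomial.coeff_monomial]
  split_ifs
  · rw [totalDegree_one]
  · rw [totalDegree_zero]

lemma TDc.mono {D D' : ℕ} {F : MvPolynomial τ (MvPolynomial σ ℤ)} (h : TDc D F) (hD : D ≤ D') : TDc D' F :=
  fun u => (h u).trans hD

lemma TDc.pow {D : ℕ} {F : MvPolynomial τ (MvPolynomial σ ℤ)} (h : TDc D F) (a : ℕ) : TDc (a * D) (F ^ a) := by
  induction a with
  | zero =>
    rw [pow_zero, zero_mul]
    exact TDc.one
  | succ a ih =>
    rw [pow_succ]
    have h1 : (a + 1) * D = a * D + D := by ring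
    rw [h1]
    exact ih.mul h

lemma TDc.prod {ι : Type*} (s : Finset ι) {D : ι → ℕ} {F : ι → MvPolynomial τ (MvPolynomial σ ℤ)}
    (h : ∀ i ∈ s, TDc (D i) (F i)) : TDc (∑ i ∈ s, D i) (∏ i ∈ s, F i) := by
  classical
  induction s using Finset.induction_on with
  | empty =>
    rw [prod_empty, sum_empty]
    exact TDc.one
  | insert a s ha ih =>
    rw [prod_insert ha, sum_insert ha]
    exact (h a (mem_insert_self _ _)).mul (ih fun i hi => h i (mem_insert_of_mem hi))

lemma totalDegree_prod_le {ι : Type*} (s : Finset ι) {D : ι → ℕ} {F : ι → MvPolynomial σ ℤ}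
    (h : ∀ i ∈ s, (F i).totalDegree ≤ D i) : (∏ i ∈ s, F i).totalDegree ≤ ∑ i ∈ s, D i :=
  (totalDegree_finsetProd _ _).trans (Finset.sum_le_sum h)

lemma totalDegree_det_le {ι : Type*} [Fintype ι] [DecidableEq ι] {D : ℕ} (M : Matrix ι ι (MvPolynomial σ ℤ))
    (h : ∀ i j, (M i j).totalDegree ≤ D) : M.det.totalDegree ≤ Fintype.card ι * D := by
  rw [Matrix.det_apply]
  refine totalDegree_finsetSum_le fun π _ => ?_
  have h1 : (∏ i, M (π i) i).totalDegree ≤ Fintype.card ι * D := by
    refine (totalDegree_prod_le univ (D := fun _ => D) fun i _ => h _ _).trans ?_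
    rw [sum_const, card_univ, smul_eq_mul]
  rcases Int.units_eq_one_or (Equiv.Perm.sign π) with h3 | h3
  · rw [h3, one_smul]
    exact h1
  · rw [h3, Units.neg_smul, one_smul, totalDegree_neg]
    exact h1

variable {n r s : ℕ}

/-- The product over the equations in `P`. -/
noncomputable def powM {R : Type*} [CommRing R] (m : Fin r → ℕ) (p : ℕ) (P : Finset (Fin r))
    (F : Fin r → MvPolynomial (Fin (n + 1)) R) : MvPolynomial (Fin (n + 1)) R :=
  ∏ j ∈ P, F j ^ ((p - 1) / m j)

lemma map_powM {R S : Type*} [CommRing R] [CommRing S] (φ : R →+* S) (m : Fin r → ℕ) (p : ℕ) (P : Finset (Fin r))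
    (F : Fin r → MvPolynomial (Fin (n + 1)) R) :
    MvPolynomial.map φ (powM m p P F) = powM m p P fun j => MvPolynomial.map φ (F j) := by
  unfold powM
  rw [map_prod]
  simp only [map_pow]

/-- The Hasse invariant: the product of the determinants of the Hasse–Witt matrices. -/
noncomputable def hasse {R : Type*} [CommRing R] (m d : Fin r → ℕ) (p : ℕ)
    (F : Fin r → MvPolynomial (Fin (n + 1)) R) : R :=
  ∏ P ∈ univ.filter (fun P : Finset (Fin r) => n + 1 ≤ ∑ j ∈ P, d j),
    (hasseWitt n (∑ j ∈ P, d j - n - 1) p (powM m p P F)).det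

lemma map_hasse {R S : Type*} [CommRing R] [CommRing S] (φ : R →+* S) (m d : Fin r → ℕ) (p : ℕ)
    (F : Fin r → MvPolynomial (Fin (n + 1)) R) :
    φ (hasse m d p F) = hasse m d p fun j => MvPolynomial.map φ (F j) := by
  unfold hasse
  rw [map_prod]
  refine Finset.prod_congr rfl fun P _ => ?_
  rw [det_hasseWitt_map, map_powM]

/-- The bound for the degree of the Hasse invariant. -/
lemma hasse_degree (m d : Fin r → ℕ) (f : Fin r → MvPolynomial (Fin (n + 1)) (MvPolynomial (Fin s) ℤ)) :
    ∃ c : ℕ, ∀ p, (hasse m d p f).totalDegree ≤ c * p := by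
  classical
  have hk : ∀ j, ∃ k : ℕ, TDc k (f j) := by
    intro j
    refine ⟨∑ u ∈ (f j).support, ((f j).coeff u).totalDegree, fun u => ?_⟩
    by_cases hu : u ∈ (f j).support
    · exact Finset.single_le_sum (f := fun u => ((f j).coeff u).totalDegree) (fun _ _ => Nat.zero_le _) hu
    · rw [notMem_support_iff.1 hu, totalDegree_zero]
      exact Nat.zero_le _
  choose k hk using hk
  refine ⟨∑ P : Finset (Fin r), Fintype.card (idx n (∑ j ∈ P, d j - n - 1)) * ∑ j ∈ P, k j, fun p => ?_⟩
  unfold hasse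
  refine (totalDegree_prod_le _ (D := fun P => Fintype.card (idx n (∑ j ∈ P, d j - n - 1)) * (∑ j ∈ P, k j) * p)
    fun P _ => ?_).trans ?_
  · have h1 : TDc (∑ j ∈ P, (p - 1) / m j * k j) (powM m p P f) := TDc.prod P fun j _ => (hk j).pow _
    have h2 : ∑ j ∈ P, (p - 1) / m j * k j ≤ (∑ j ∈ P, k j) * p := by
      rw [Finset.sum_mul]
      refine Finset.sum_le_sum fun j _ => ?_
      rw [mul_comm]
      exact Nat.mul_le_mul_left _ ((Nat.div_le_self _ _).trans (Nat.sub_le _ _))
    rw [mul_assoc]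
    refine totalDegree_det_le _ fun u v => ?_
    have h3 := ((TDc.monomial (σ := Fin s) (v : Fin (n + 1) →₀ ℕ)).mul h1)
    rw [zero_add] at h3
    have h4 : hasseWitt n (∑ j ∈ P, d j - n - 1) p (powM m p P f) u v =
        MvPolynomial.coeff (p • (u : Fin (n + 1) →₀ ℕ) + topE (Fin (n + 1)) p)
          (MvPolynomial.monomial (v : Fin (n + 1) →₀ ℕ) 1 * powM m p P f) := rfl
    rw [h4]
    exact (h3 _).trans h2
  · rw [Finset.sum_mul]
    exact Finset.sum_le_sum_of_subset (Finset.filter_subset _ _)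

end Pool.Agent.H446.AP14
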